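import Pool.Agent.H95.NV.Targets3
import Pool.Agent.H14.CM4.CTPE

/-!
# MP_347b49_nt: row FSP, finitely many discriminants
-/

set_option autoImplicit false

open MeasureTheory Set Filter NumberField
open scoped Real nonZeroDivisors

namespace Pool.Agent.H34.NV

open Pool.Agent.H95.NV
open Pool.Agent.H65.CM4 (Pl rv nm dk dg)
open Pool.Agent.H61.NVK (ci cr)
open Pool.Agent.H89.NV (em tp Fnd GW)
open Pool.Agent.H14.CM4 (abs_rv nm_le_prod)

/-- A smooth function which is one on `[1, B]`. -/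
lemma exists_bump (B : ℝ) (hB : 1 ≤ B) : ∃ w : ℝ → ℝ, ContDiff ℝ (⊤ : ℕ∞) w ∧
    (∀ x ∈ Icc 1 B, w x = 1) ∧ ∀ x, x ∉ Icc (1 / (2 * B)) (1 / (1 / (2 * B))) → w x = 0 := by
  let f : ContDiffBump ((1 + B) / 2) :=
    ⟨(B - 1) / 2 + 1 / 8, (B - 1) / 2 + 1 / 4, by linarith, by linarith⟩
  refine ⟨f, f.contDiff, ?_, ?_⟩
  · intro x hx
    apply f.one_of_mem_closedBall
    rw [Metric.mem_closedBall, Real.dist_eq, abs_le]
    show -((B - 1) / 2 + 1 / 8) ≤ x - (1 + B) / 2 ∧ x - (1 + B) / 2 ≤ (B - 1) / 2 + 1 / 8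
    constructor <;> linarith [hx.1, hx.2]
  · intro x hx
    by_contra h
    have h1 : x ∈ Function.support f := h
    rw [f.support_eq, Metric.mem_ball, Real.dist_eq, abs_lt] at h1
    have h2 : -((B - 1) / 2 + 1 / 4) < x - (1 + B) / 2 ∧
        x - (1 + B) / 2 < (B - 1) / 2 + 1 / 4 := h1
    apply hx
    rw [one_div_one_div]
    constructor
    · have h3 : 1 / (2 * B) ≤ 1 / 2 := one_div_le_one_div_of_le (by norm_num) (by linarith)
      linarith [h2.1]
    · linarith [h2.2]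

/-- Finitely many algebraic integers have bounded conjugates. -/
lemma finite_bdd (k : Type) [Field k] [NumberField k] [IsTotallyReal k] (R : ℝ) :
    {D : 𝓞 k | ∀ v : Pl k, |rv v (D : k)| ≤ R}.Finite := by
  have h1 := Embeddings.finite_of_norm_le k ℂ R
  refine (h1.preimage (f := fun D : 𝓞 k => (D : k))
    (fun a _ b _ h => RingOfIntegers.ext h)).subset ?_
  intro D hD
  refine ⟨D.isIntegral_coe, fun φ => ?_⟩
  have h2 := hD (InfinitePlace.mk φ)
  rw [abs_rv, InfinitePlace.apply] at h2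
  exact h2

theorem pf_FSP : T_FSP := by
  intro k _ _ _ Ψ hΨ
  have hdk : (0 : ℝ) < dk k := by
    unfold dk
    exact Nat.cast_pos.2 (Int.natAbs_pos.2 (discr_ne_zero k))
  have hci : ∀ c : ClassGroup (𝓞 k), 0 < nm (ci c) := by
    intro c
    unfold nm ci
    have h1 : ((cr c : (Ideal (𝓞 k))⁰) : Ideal (𝓞 k)) ≠ ⊥ := nonZeroDivisors.coe_ne_zero _
    exact Nat.cast_pos.2 (Nat.pos_of_ne_zero (fun h => h1 (Ideal.absNorm_eq_zero_iff.1 h)))
  have hmul : ∀ x, mul k Ψ x ≠ 0 → tp x.2 ∧ Ψ (em x.2) ≠ 0 := by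
    intro x hx
    unfold mul at hx
    split_ifs at hx with h
    · exact ⟨h.1, hx⟩
    · exact absurd rfl hx
  have hprod : ∀ D : 𝓞 k, tp D → 1 ≤ ∏ v : Pl k, rv v (D : k) := by
    intro D hD
    have hD0 : D ≠ 0 := by
      rintro rfl
      obtain ⟨v⟩ : Nonempty (Pl k) := inferInstance
      have h1 := hD v
      have h2 : (((0 : 𝓞 k) : k)) = 0 := rfl
      rw [h2, map_zero] at h1
      exact lt_irrefl _ h1
    have h1 := nm_le_prod (m := ⊤) (x := D) trivial hD0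
    have h2 : nm (⊤ : Ideal (𝓞 k)) = 1 := by
      unfold nm
      rw [Ideal.absNorm_top, Nat.cast_one]
    rw [h2] at h1
    exact h1.trans (le_of_eq (Finset.prod_congr rfl fun v _ => abs_of_pos (hD v)))
  refine ⟨fun x => ⟨?_, fun hx => ?_⟩, fun X => ?_⟩
  · unfold mul
    split_ifs
    · exact (hΨ.unit _).1
    · exact le_rfl
  · have h1 := hprod x.2 (hmul x hx).1
    unfold dsz
    have h2 := hci x.1
    positivity
  · let B : ℝ := 1 + ∑ c : ClassGroup (𝓞 k), |X| * nm (ci c) ^ 2 / (dk k : ℝ) ^ 2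
    have hnn : ∀ c : ClassGroup (𝓞 k), 0 ≤ |X| * nm (ci c) ^ 2 / (dk k : ℝ) ^ 2 := fun c => by
      positivity
    have hB : 1 ≤ B := by
      have := Finset.sum_nonneg fun c (_ : c ∈ (Finset.univ : Finset (ClassGroup (𝓞 k)))) => hnn c
      show 1 ≤ 1 + _
      linarith
    obtain ⟨w, hw1, hw2, hw3⟩ := exists_bump B hB
    obtain ⟨η, hη⟩ := hΨ.gw w (1 / (2 * B)) (by positivity) hw1 hw3
    refine ((Set.finite_univ (α := ClassGroup (𝓞 k))).prod (finite_bdd k (1 / η))).subset ?_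
    rintro ⟨c, D⟩ ⟨hm, hd⟩
    obtain ⟨hD, hΨD⟩ := hmul _ hm
    refine ⟨mem_univ _, fun v => ?_⟩
    have h1 := hprod D hD
    have h2 : ∏ v : Pl k, rv v (D : k) ≤ B := by
      have h3 : (dk k : ℝ) ^ 2 * (∏ v : Pl k, rv v (D : k)) / nm (ci c) ^ 2 ≤ X := hd
      have hc := hci c
      rw [div_le_iff₀ (by positivity)] at h3
      have h4 : ∏ v : Pl k, rv v (D : k) ≤ |X| * nm (ci c) ^ 2 / (dk k : ℝ) ^ 2 := by
        rw [le_div_iff₀ (by positivity)]
        have h5 : X * nm (ci c) ^ 2 ≤ |X| * nm (ci c) ^ 2 :=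
          mul_le_mul_of_nonneg_right (le_abs_self X) (by positivity)
        linarith
      have h6 := Finset.single_le_sum (f := fun c : ClassGroup (𝓞 k) =>
        |X| * nm (ci c) ^ 2 / (dk k : ℝ) ^ 2) (fun c _ => hnn c) (Finset.mem_univ c)
      show _ ≤ 1 + _
      linarith
    by_contra hv
    have h3 := hη.supp (em D) ⟨v, fun hvI => hv (by
      rw [abs_of_pos (hD v)]
      exact hvI.2)⟩
    have h4 : w (∏ v, em D v) = 1 := hw2 _ ⟨h1, h2⟩
    simp only [h4, one_mul] at h3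
    exact hΨD h3

end Pool.Agent.H34.NV
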