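import Pool.Agent.H95.NV.Targets1

/-!
# MP_347b49_nt: row HKC, the characters of the class group modulo the ideals of `k`
-/

set_option autoImplicit false

open NumberField
open scoped nonZeroDivisors

namespace Pool.Agent.H34.NV

open Pool.Agent.H95.NV

section

variable (k K : Type) [Field k] [NumberField k] [Field K] [NumberField K] [Algebra k K]

lemma mk0_ext (I : (Ideal (𝓞 k))⁰) :
    ClassGroup.mk0 (Pool.Agent.H95.NV.ext (K := K) I) =
      ClassGroup.extendedHom (𝓞 k) (𝓞 K) (ClassGroup.mk0 I) := by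
  rw [ClassGroup.extendedHom_mk0]
  rfl

lemma Hk_eq : Hk k K = (ClassGroup.extendedHom (𝓞 k) (𝓞 K)).range := by
  unfold Hk
  refine le_antisymm ?_ ?_
  · rw [Subgroup.closure_le]
    rintro _ ⟨I, rfl⟩
    exact ⟨ClassGroup.mk0 I, (mk0_ext k K I).symm⟩
  · rintro _ ⟨c, rfl⟩
    obtain ⟨I, rfl⟩ := ClassGroup.mk0_surjective c
    exact Subgroup.subset_closure ⟨I, mk0_ext k K I⟩

lemma mem_Hk (x : ClassGroup (𝓞 K)) :
    x ∈ Hk k K ↔ ∃ I : (Ideal (𝓞 k))⁰, x = ClassGroup.mk0 (Pool.Agent.H95.NV.ext I) := by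
  rw [Hk_eq]
  constructor
  · rintro ⟨c, rfl⟩
    obtain ⟨I, rfl⟩ := ClassGroup.mk0_surjective c
    exact ⟨I, (mk0_ext k K I).symm⟩
  · rintro ⟨I, rfl⟩
    exact ⟨ClassGroup.mk0 I, (mk0_ext k K I).symm⟩

lemma Chk_triv {ψ : ClassGroup (𝓞 K) →* ℂˣ} (hψ : ψ ∈ Chk k K) (x : ClassGroup (𝓞 K))
    (hx : x ∈ Hk k K) : ψ x = 1 := by
  obtain ⟨I, rfl⟩ := (mem_Hk k K x).1 hx
  exact hψ I

/-- The characters modulo the ideals of `k`. -/
noncomputable def chkEquiv : Chk k K ≃ (Gk k K →* ℂˣ) where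
  toFun ψ := QuotientGroup.lift (Hk k K) ψ.1 (Chk_triv k K ψ.2)
  invFun φ := ⟨φ.comp (QuotientGroup.mk' (Hk k K)), fun I => by
    have h1 : QuotientGroup.mk' (Hk k K) (ClassGroup.mk0 (Pool.Agent.H95.NV.ext (K := K) I)) = 1 :=
      (QuotientGroup.eq_one_iff _).2 ((mem_Hk k K _).2 ⟨I, rfl⟩)
    rw [MonoidHom.comp_apply, h1, map_one]⟩
  left_inv ψ := Subtype.ext (MonoidHom.ext fun _ => rfl)
  right_inv φ := QuotientGroup.monoidHom_ext _ (MonoidHom.ext fun _ => rfl)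

end

theorem pf_HKC : T_HKC := by
  intro k K _ _ _ _ _
  have hfin : Finite (Gk k K →* ℂˣ) := Finite.of_equiv _
    (CommGroup.monoidHom_mulEquiv_of_hasEnoughRootsOfUnity (Gk k K) ℂ).some.symm.toEquiv
  refine ⟨mem_Hk k K, ?_, ?_, ?_, ?_⟩
  · have h1 : Finite (Chk k K) := Finite.of_equiv _ (chkEquiv k K).symm
    exact Set.toFinite _
  · rw [← Nat.card_coe_set_eq, Nat.card_congr (chkEquiv k K)]
    exact CommGroup.card_monoidHom_of_hasEnoughRootsOfUnity (Gk k K) ℂ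
  · intro ψ hψ
    exact ⟨chkEquiv k K ⟨ψ, hψ⟩, fun _ => rfl⟩
  · intro φ
    exact ⟨((chkEquiv k K).symm φ).1, ((chkEquiv k K).symm φ).2, fun _ => rfl⟩

end Pool.Agent.H34.NV
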