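import Pool.Agent.H95.NV.Targets1

/-!
# MP_347b49_nt: row IDN, different pairs give different ideals
-/

set_option autoImplicit false

open NumberField
open scoped nonZeroDivisors

namespace Pool.Agent.H34.NV

open Pool.Agent.H95.NV

/-- An ideal which is not contained in an ideal from below: the content of its multiples. -/
lemma prim_le {k K : Type} [Field k] [NumberField k] [Field K] [NumberField K] [Algebra k K]
    (I : Ideal (𝓞 K)) (hI : ∀ e : Ideal (𝓞 k), I ≤ e.map (algebraMap (𝓞 k) (𝓞 K)) → e = ⊤)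
    (e a : Ideal (𝓞 k)) (he : e ≠ ⊥)
    (h : e.map (algebraMap (𝓞 k) (𝓞 K)) * I ≤ a.map (algebraMap (𝓞 k) (𝓞 K))) : e ≤ a := by
  have hinj : Function.Injective (algebraMap (𝓞 k) (𝓞 K)) :=
    FaithfulSMul.algebraMap_injective (𝓞 k) (𝓞 K)
  obtain ⟨e1, he1⟩ := Ideal.dvd_iff_le.2 (le_sup_left : e ≤ e ⊔ a)
  obtain ⟨a1, ha1⟩ := Ideal.dvd_iff_le.2 (le_sup_right : a ≤ e ⊔ a)
  set g := e ⊔ a with hg
  have hg0 : g ≠ ⊥ := fun h0 => he (le_bot_iff.1 (h0 ▸ (le_sup_left : e ≤ e ⊔ a)))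
  have h1 : e1 ⊔ a1 = ⊤ := by
    have h2 : g * (e1 ⊔ a1) = g * ⊤ := by
      rw [Ideal.mul_sup, ← he1, ← ha1, Ideal.mul_top]
    exact mul_left_cancel₀ hg0 h2
  have hgm : g.map (algebraMap (𝓞 k) (𝓞 K)) ≠ ⊥ := by
    intro h0
    rw [Ideal.map_eq_bot_iff_of_injective hinj] at h0
    exact hg0 h0
  have h2 : e1.map (algebraMap (𝓞 k) (𝓞 K)) * I ≤ a1.map (algebraMap (𝓞 k) (𝓞 K)) := by
    have h3 : g.map (algebraMap (𝓞 k) (𝓞 K)) * a1.map (algebraMap (𝓞 k) (𝓞 K)) ∣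
        g.map (algebraMap (𝓞 k) (𝓞 K)) * (e1.map (algebraMap (𝓞 k) (𝓞 K)) * I) := by
      rw [← Ideal.map_mul, ← ha1, ← mul_assoc, ← Ideal.map_mul, ← he1]
      exact Ideal.dvd_iff_le.2 h
    exact Ideal.dvd_iff_le.1 ((mul_dvd_mul_iff_left hgm).1 h3)
  have h3 : I ≤ a1.map (algebraMap (𝓞 k) (𝓞 K)) := by
    have h4 : (e1.map (algebraMap (𝓞 k) (𝓞 K)) ⊔ a1.map (algebraMap (𝓞 k) (𝓞 K))) * I = I := by
      rw [← Ideal.map_sup, h1, Ideal.map_top, Ideal.top_mul]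
    rw [← h4, Ideal.sup_mul]
    exact sup_le h2 Ideal.mul_le_left
  have h5 := hI a1 h3
  rw [h5, Ideal.mul_top] at ha1
  rw [ha1]
  exact le_sup_left

theorem pf_IDN (hCOO : T_COO) (hIDC : T_IDC) (hIDR : T_IDR) : T_IDN := by
  intro k K _ _ _ _ _ _ _ f D b₀ δ hKD e e' A A' b b' he he' hA hA' heq
  have hinj : Function.Injective (algebraMap (𝓞 k) (𝓞 K)) :=
    FaithfulSMul.algebraMap_injective (𝓞 k) (𝓞 K)
  obtain ⟨r1, r2⟩ := hIDR k K f D b₀ δ hKD A b hA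
  obtain ⟨r1', r2'⟩ := hIDR k K f D b₀ δ hKD A' b' hA'
  have hee : e = e' := by
    refine le_antisymm ?_ ?_
    · refine prim_le (Id f A b δ) r2 e e' he ?_
      rw [heq]
      exact Ideal.mul_le_left
    · refine prim_le (Id f A' b' δ) r2' e' e he' ?_
      rw [← heq]
      exact Ideal.mul_le_left
  subst hee
  have hem : e.map (algebraMap (𝓞 k) (𝓞 K)) ≠ ⊥ := by
    intro h0
    rw [Ideal.map_eq_bot_iff_of_injective hinj] at h0
    exact he h0
  have hI : Id f A b δ = Id f A' b' δ := mul_left_cancel₀ hem heq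
  have hAA : A = A' := by rw [← r1, ← r1', hI]
  subst hAA
  refine ⟨rfl, rfl, ?_⟩
  have hw : w b' δ ∈ Lt f A b' δ := ⟨0, Ideal.zero_mem _, 1, by simp⟩
  have hw2 : w b' δ ∈ Lt f A b δ := by
    rw [(hIDC k K f D b₀ δ hKD A b hA).2.2.1, hI]
    exact ((hIDC k K f D b₀ δ hKD A b' hA').2.2.1 _).1 hw
  obtain ⟨x, hx, y, hxy⟩ := hw2
  have h1 : w b' δ = w b δ + algebraMap k K (((b' : k) - b) / 2) := by
    unfold w
    rw [map_div₀, map_sub, map_ofNat]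
    ring
  have h2 : algebraMap k K ((x : k) - ((b' : k) - b) / 2) +
      algebraMap k K ((y : k) - 1) * w b δ = 0 := by
    rw [map_sub, map_sub, map_one]
    rw [h1] at hxy
    linear_combination -hxy
  have h3 := ((hCOO k K D b δ hKD.pos hKD.sq).2.1 _ _ h2).1
  refine ⟨x, hx, ?_⟩
  apply RingOfIntegers.ext
  have e2 : ((b + 2 * x : 𝓞 k) : k) = (b : k) + 2 * (x : k) := by
    change algebraMap (𝓞 k) k (b + 2 * x) = algebraMap (𝓞 k) k b + 2 * algebraMap (𝓞 k) k x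
    rw [map_add, map_mul, map_ofNat]
  rw [e2]
  linear_combination -2 * h3

end Pool.Agent.H34.NV
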