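import Pool.Agent.H95.NV.Targets2

/-!
# MP_347b49_nt: row INQ, the forms of different classes are inequivalent
-/

set_option autoImplicit false

open NumberField
open scoped nonZeroDivisors

namespace Pool.Agent.H34.NV

open Pool.Agent.H95.NV
open Pool.Agent.H89.NV (CK Lam hom Ineq)

theorem pf_INQ (hEQV : T_EQV) (hBRK : T_BRK) : T_INQ := by
  intro k K _ _ _ _ _ _ f D b₀ h hKD hT ι A b I hI hcl i j I1 J g hI1 hJ hg heq
  obtain ⟨hq, hs, him, hLam⟩ := (hBRK k K D).1 h
  have hL : ∀ i, Lam h f (A i) (b i) = Lt f (A i) (b i) h.s := fun i =>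
    Submodule.ext fun z => hLam _ _ _ z
  have h1 : ∀ z : K, z ∈ J • Lt f (A i) (b i) h.s ↔ g * z ∈ I1 • Lt f (A j) (b j) h.s := by
    intro z
    have e1 : hom J g (Lam h f (A i) (b i)) =
        (J • Lt f (A i) (b i) h.s).map (LinearMap.mulLeft (𝓞 k) g) := by
      unfold hom
      rw [hL, Submodule.map_smul'']
    have e2 : hom I1 1 (Lam h f (A j) (b j)) = I1 • Lt f (A j) (b j) h.s := by
      unfold hom
      rw [hL, LinearMap.mulLeft_one, Submodule.map_id]
    rw [← e2, ← heq, e1]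
    constructor
    · intro hz
      exact Submodule.mem_map.2 ⟨z, hz, rfl⟩
    · intro hz
      obtain ⟨y, hy, hyz⟩ := Submodule.mem_map.1 hz
      have h2 : y = z := mul_left_cancel₀ hg hyz
      rwa [← h2]
  obtain ⟨c1, c2⟩ := hEQV k K f D b₀ h.s hKD hT (A i) (A j) (b i) (b j) (I i) (I j) (hI i).1
    (hI j).1 (hI i).2 (hI j).2 g J I1 hg hJ hI1 h1
  have hij := hcl i j c1
  subst hij
  exact ⟨rfl, (him g).2 (c2 rfl)⟩

end Pool.Agent.H34.NV
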