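import Pool.Agent.H95.NV.Targets2

/-!
# MP_347b49_nt: row VKE, the decay of the cut-off function
-/

set_option autoImplicit false

open MeasureTheory NumberField
open scoped Real

namespace Pool.Agent.H34.NV

open Pool.Agent.H65.CM4 (gG Kc dk dg)
open Pool.Agent.H61.NVK (Vk)
open Pool.Agent.H95.NV

/-- The kernel is at most a constant times the inverse square. -/
lemma Kc_le (n : ℕ) (s : ℂ) : ∃ C : ℝ, 0 ≤ C ∧ ∀ r : ℝ, 0 < r →
    ‖Kc n s (r : ℂ)‖ ≤ C * (r ^ 2)⁻¹ := by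
  let φ : ℝ → ℝ := fun t => ‖gG (2 + t * Complex.I) ^ n *
    (Complex.exp ((2 + t * Complex.I - s) ^ 2) / (2 + t * Complex.I - s))‖
  have hφ : 0 ≤ ∫ t, φ t := integral_nonneg fun t => norm_nonneg _
  refine ⟨‖((1 / (2 * π) : ℝ) : ℂ)‖ * ∫ t, φ t, mul_nonneg (norm_nonneg _) hφ, fun r hr => ?_⟩
  have h1 : ∀ t : ℝ, ‖gG (2 + t * Complex.I) ^ n *
      (Complex.exp ((2 + t * Complex.I - s) ^ 2) / (2 + t * Complex.I - s)) *
      (r : ℂ) ^ (-(2 + t * Complex.I))‖ = φ t * (r ^ 2)⁻¹ := by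
    intro t
    rw [norm_mul, Complex.norm_cpow_eq_rpow_re_of_pos hr]
    have e : (-(2 + (t : ℂ) * Complex.I)).re = -2 := by simp
    rw [e, Real.rpow_neg hr.le, Real.rpow_two]
  unfold Kc
  rw [norm_mul, mul_assoc]
  refine mul_le_mul_of_nonneg_left ?_ (norm_nonneg _)
  refine (norm_integral_le_integral_norm _).trans (le_of_eq ?_)
  rw [← integral_mul_const]
  exact integral_congr_ae (Filter.Eventually.of_forall h1)

theorem pf_VKE : T_VKE := by
  intro k _ _ _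
  obtain ⟨C, hC, hK⟩ := Kc_le (dg k) (1 / 2)
  have hdk : (0 : ℝ) < dk k := by
    unfold dk
    exact Nat.cast_pos.2 (Int.natAbs_pos.2 (discr_ne_zero k))
  refine ⟨(dk k : ℝ) ^ 2 / Real.sqrt (dk k) * (C / ‖gG (1 / 2) ^ dg k‖), fun x hx => ?_⟩
  have hr : 0 < x / dk k := div_pos hx hdk
  unfold Vk
  refine (Complex.abs_re_le_norm _).trans ?_
  rw [norm_mul, norm_div, Complex.norm_real, Real.norm_of_nonneg (Real.sqrt_nonneg _)]
  have h1 := hK _ hr
  have h2 : Real.sqrt (x / dk k) * ((x / dk k) ^ 2)⁻¹ =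
      (dk k : ℝ) ^ 2 / Real.sqrt (dk k) / (x * Real.sqrt x) := by
    rw [Real.sqrt_div hx.le]
    have hs : Real.sqrt x * Real.sqrt x = x := Real.mul_self_sqrt hx.le
    have hs0 : Real.sqrt x ≠ 0 := (Real.sqrt_pos.2 hx).ne'
    have hd0 : Real.sqrt (dk k) ≠ 0 := (Real.sqrt_pos.2 hdk).ne'
    have hdk' := hdk.ne'
    have hx' := hx.ne'
    field_simp
    linear_combination hs
  calc Real.sqrt (x / dk k) * (‖Kc (dg k) (1 / 2) ((x / dk k : ℝ) : ℂ)‖ / ‖gG (1 / 2) ^ dg k‖)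
      ≤ Real.sqrt (x / dk k) * (C * ((x / dk k) ^ 2)⁻¹ / ‖gG (1 / 2) ^ dg k‖) := by
        refine mul_le_mul_of_nonneg_left ?_ (Real.sqrt_nonneg _)
        exact div_le_div_of_nonneg_right h1 (norm_nonneg _)
    _ = (Real.sqrt (x / dk k) * ((x / dk k) ^ 2)⁻¹) * (C / ‖gG (1 / 2) ^ dg k‖) := by ring
    _ = _ := by rw [h2]; ring

end Pool.Agent.H34.NV
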