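import Pool.Agent.H95.NV.Targets3

/-!
# MP_347b49_nt: row ZS2, the principal form, every discriminant
-/

set_option autoImplicit false

open MeasureTheory Set Filter NumberField
open scoped Real nonZeroDivisors

namespace Pool.Agent.H34.NV

open Pool.Agent.H95.NV
open Pool.Agent.H65.CM4 (Pl rv nm dk dg)
open Pool.Agent.H89.NV (PrI ni q4 CK em tp sd Z1 S2 CD SD T_UNF T_AUT)

theorem pf_ZS2 : T_ZS2 := by
  intro k _ _ _ hU hA hK f D b hf hD hb hbD hsz P M R
  obtain ⟨K, _, _, hCK⟩ := hK D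
  obtain ⟨h⟩ := hCK hD
  have h1 := hU f D hf hD ⟨b, hb, hbD⟩ K h (SD M R) (CD P M f R b (q4 (b ^ 2 + D))) Unit
    (fun _ => ⊤) (fun _ => b)
    (fun _ => ⟨by exact top_ne_bot, hb, by rw [Ideal.top_mul]; exact hbD⟩)
    (fun i j I J g hI hJ hg he => ⟨rfl, hA f D b hf hD hb hbD hsz K h I J g hI hJ hg he⟩)
  rw [Fintype.sum_unique] at h1
  exact h1

end Pool.Agent.H34.NV
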